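import Pool.Agent.Lib.MP_38fd99_co.Basic

/-!
# Labels and bundles

Separated frozen bundles are few: `card_bundles`.
-/

set_option autoImplicit false

namespace Pool.Agent.GG38

open Finset Classical

variable {ι : Type}

namespace Lines

variable (L : Lines ι)

/-! ### comparison of heights at different times -/

/-- a faster line which is above stays above -/
theorem H_lt_of_le {x y : ι} {t t' : ℝ} (hv : L.v x ≤ L.v y) (ht : t ≤ t')
    (h : L.H x t < L.H y t) : L.H x t' < L.H y t' := by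
  unfold H at *
  nlinarith [mul_nonneg (sub_nonneg.2 hv) (sub_nonneg.2 ht)]

/-- the line `y` overtakes the line `x` between two times: it is faster -/
theorem v_lt_of_overtake {x y : ι} {t t' : ℝ} (ht : t ≤ t') (h : L.H x t ≤ L.H y t)
    (h' : L.H y t' < L.H x t') : L.v y < L.v x := by
  by_contra hcon
  push Not at hcon
  unfold H at *
  nlinarith [mul_nonneg (sub_nonneg.2 hcon) (sub_nonneg.2 ht)]

/-- below at both ends implies below in between -/
theorem H_lt_between {x y : ι} {t0 t1 t : ℝ} (h0 : t0 ≤ t) (h1 : t ≤ t1)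
    (e0 : L.H x t0 < L.H y t0) (e1 : L.H x t1 < L.H y t1) : L.H x t < L.H y t := by
  rcases le_total (L.v x) (L.v y) with hv | hv
  · exact L.H_lt_of_le hv h0 e0
  · by_contra hcon
    push Not at hcon
    unfold H at *
    nlinarith [mul_nonneg (sub_nonneg.2 hv) (sub_nonneg.2 h1)]

/-! ### separation of edges -/

/-- (Bc) -/
theorem disj_B {e f : ι × ι} {t : ℝ} (he : L.v e.1 < L.v e.2) (hf : L.v f.1 < L.v f.2)
    (h1 : L.tm e.1 e.2 ≤ t) (h2 : t ≤ L.tm f.1 f.2) (h : L.H e.2 t < L.H f.2 t) :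
    L.Disj e f := by
  have e1 := L.H_sub he.ne t
  have e2 := L.H_sub hf.ne t
  have e3 : L.H e.1 t ≤ L.H e.2 t := by
    nlinarith [mul_nonneg (sub_nonneg.2 he.le) (sub_nonneg.2 h1)]
  have e4 : L.H f.2 t ≤ L.H f.1 t := by
    nlinarith [mul_nonneg (sub_nonneg.2 hf.le) (sub_nonneg.2 h2)]
  exact Or.inl ⟨t, by linarith, by linarith, by linarith, by linarith⟩

/-- (Ac) -/
theorem disj_A {e f : ι × ι} {t : ℝ} (he : L.v e.1 < L.v e.2) (hf : L.v f.1 < L.v f.2)
    (h1 : L.tm e.1 e.2 ≤ t) (h2 : t ≤ L.tm f.1 f.2) (h : L.H f.1 t < L.H e.1 t) :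
    L.Disj e f := by
  have e1 := L.H_sub he.ne t
  have e2 := L.H_sub hf.ne t
  have e3 : L.H e.1 t ≤ L.H e.2 t := by
    nlinarith [mul_nonneg (sub_nonneg.2 he.le) (sub_nonneg.2 h1)]
  have e4 : L.H f.2 t ≤ L.H f.1 t := by
    nlinarith [mul_nonneg (sub_nonneg.2 hf.le) (sub_nonneg.2 h2)]
  exact Or.inr ⟨t, by linarith, by linarith, by linarith, by linarith⟩

/-- superadditivity for two sets -/
theorem nu_add_le {S T E : Finset (ι × ι)} (hS : S ⊆ E) (hT : T ⊆ E)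
    (h : ∀ e ∈ S, ∀ f ∈ T, L.Disj e f) : L.nu S + L.nu T ≤ L.nu E := by
  have := L.sum_nu_le (κ := Bool) Finset.univ (fun k => if k then S else T) E
    (by intro k _; cases k <;> simp [hS, hT])
    (by
      intro k _ l _ hkl e he f hf
      cases k <;> cases l
      · exact absurd rfl hkl
      · simp only [Bool.false_eq_true, if_false, if_true] at he hf
        exact L.Disj_symm (h f hf e he)
      · simp only [Bool.false_eq_true, if_false, if_true] at he hf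
        exact h e he f hf
      · exact absurd rfl hkl)
  simpa using this

/-! ### labels -/

/-- edges which have met before `t` and whose fast line is slower than `x` and below `x` -/
noncomputable def Vset (EE : Finset (ι × ι)) (x : ι) (t : ℝ) : Finset (ι × ι) :=
  EE.filter (fun e => L.tm e.1 e.2 ≤ t ∧ L.v e.2 < L.v x ∧ L.H e.2 t < L.H x t)

/-- edges which meet after `t` and whose fast line is slower than `x` and above `x` -/
noncomputable def Wset (EE : Finset (ι × ι)) (x : ι) (t : ℝ) : Finset (ι × ι) :=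
  EE.filter (fun e => t ≤ L.tm e.1 e.2 ∧ L.v e.2 < L.v x ∧ L.H x t < L.H e.2 t)

/-- first label -/
noncomputable def V (EE : Finset (ι × ι)) (x : ι) (t : ℝ) : ℕ := L.nu (L.Vset EE x t)

/-- second label -/
noncomputable def W (EE : Finset (ι × ι)) (x : ι) (t : ℝ) : ℕ := L.nu (L.Wset EE x t)

theorem mem_Vset {EE : Finset (ι × ι)} {x : ι} {t : ℝ} {e : ι × ι} :
    e ∈ L.Vset EE x t ↔ e ∈ EE ∧ L.tm e.1 e.2 ≤ t ∧ L.v e.2 < L.v x ∧ L.H e.2 t < L.H x t := by
  simp [Vset]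

theorem mem_Wset {EE : Finset (ι × ι)} {x : ι} {t : ℝ} {e : ι × ι} :
    e ∈ L.Wset EE x t ↔ e ∈ EE ∧ t ≤ L.tm e.1 e.2 ∧ L.v e.2 < L.v x ∧ L.H x t < L.H e.2 t := by
  simp [Wset]

theorem V_le (EE : Finset (ι × ι)) (x : ι) (t : ℝ) : L.V EE x t ≤ L.nu EE :=
  L.nu_mono (Finset.filter_subset _ _)

theorem W_le (EE : Finset (ι × ι)) (x : ι) (t : ℝ) : L.W EE x t ≤ L.nu EE :=
  L.nu_mono (Finset.filter_subset _ _)

theorem V_mono (EE : Finset (ι × ι)) (x : ι) {t t' : ℝ} (h : t ≤ t') :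
    L.V EE x t ≤ L.V EE x t' := by
  apply L.nu_mono
  intro e he
  rw [mem_Vset] at he ⊢
  exact ⟨he.1, he.2.1.trans h, he.2.2.1, L.H_lt_of_le he.2.2.1.le h he.2.2.2⟩

theorem W_anti (EE : Finset (ι × ι)) (x : ι) {t t' : ℝ} (h : t ≤ t') :
    L.W EE x t' ≤ L.W EE x t := by
  apply L.nu_mono
  intro e he
  rw [mem_Wset] at he ⊢
  refine ⟨he.1, h.trans he.2.1, he.2.2.1, ?_⟩
  by_contra hcon
  push Not at hcon
  have h1 := he.2.2.2
  have h2 := he.2.2.1
  unfold H at *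
  nlinarith [mul_nonneg (sub_nonneg.2 h2.le) (sub_nonneg.2 h)]

/-- (L1), (L3): the first label -/
theorem V_step {EE S : Finset (ι × ι)} {x y : ι} {t0 t1 : ℝ} (h01 : t0 ≤ t1)
    (hEE : ∀ e ∈ EE, L.v e.1 < L.v e.2) (hS : S ⊆ EE) (hv : L.v x ≤ L.v y)
    (hxy : L.H x t1 ≤ L.H y t1) (hS0 : ∀ f ∈ S, t0 ≤ L.tm f.1 f.2)
    (hS1 : ∀ f ∈ S, L.tm f.1 f.2 ≤ t1) (hSv : ∀ f ∈ S, L.v f.2 < L.v y)
    (hSx : ∀ f ∈ S, L.H x t0 ≤ L.H f.2 t0) (hSy : ∀ f ∈ S, L.H f.2 t1 < L.H y t1) :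
    L.V EE x t0 + L.nu S ≤ L.V EE y t1 := by
  apply L.nu_add_le
  · intro e he
    rw [mem_Vset] at he ⊢
    refine ⟨he.1, he.2.1.trans h01, he.2.2.1.trans_le hv, ?_⟩
    exact (L.H_lt_of_le he.2.2.1.le h01 he.2.2.2).trans_le hxy
  · intro f hf
    rw [mem_Vset]
    exact ⟨hS hf, hS1 f hf, hSv f hf, hSy f hf⟩
  · intro e he f hf
    rw [mem_Vset] at he
    exact L.disj_B (hEE e he.1) (hEE f (hS hf)) he.2.1 (hS0 f hf)
      (he.2.2.2.trans_le (hSx f hf))

/-- (L4): the second label -/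
theorem W_step {EE S : Finset (ι × ι)} {x y : ι} {t0 t1 : ℝ} (h01 : t0 ≤ t1)
    (hEE : ∀ e ∈ EE, L.v e.1 < L.v e.2) (hS : S ⊆ EE) (hv : L.v x ≤ L.v y)
    (hxy : L.H y t0 ≤ L.H x t0) (hS0 : ∀ f ∈ S, t0 ≤ L.tm f.1 f.2)
    (hS1 : ∀ f ∈ S, L.tm f.1 f.2 ≤ t1) (hSv : ∀ f ∈ S, L.v f.2 < L.v y)
    (hSy : ∀ f ∈ S, L.H y t0 < L.H f.2 t0) (hSx : ∀ f ∈ S, L.H f.2 t1 ≤ L.H x t1) :
    L.nu S + L.W EE x t1 ≤ L.W EE y t0 := by
  apply L.nu_add_le
  · intro f hf
    rw [mem_Wset]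
    exact ⟨hS hf, hS0 f hf, hSv f hf, hSy f hf⟩
  · intro e he
    rw [mem_Wset] at he ⊢
    refine ⟨he.1, h01.trans he.2.1, he.2.2.1.trans_le hv, ?_⟩
    by_contra hcon
    push Not at hcon
    have h1 := he.2.2.2
    have h2 := he.2.2.1
    unfold H at *
    nlinarith [mul_nonneg (sub_nonneg.2 h2.le) (sub_nonneg.2 h01)]
  · intro f hf e he
    rw [mem_Wset] at he
    exact L.disj_B (hEE f (hS hf)) (hEE e he.1) (hS1 f hf) he.2.1
      ((hSx f hf).trans_lt he.2.2.2)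

end Lines

/-! ### quantiles -/

/-- the elements with small lower mass have small total mass -/
theorem mass_low (T : Finset ι) (om : ι → ℝ) (g : ι → ℝ) (h0 : ∀ x ∈ T, 0 ≤ om x) {c : ℝ}
    (hc : 0 < c) :
    ∑ x ∈ T.filter (fun x => ∑ z ∈ T.filter (fun z => g z ≤ g x), om z < c), om x < c := by
  rcases (T.filter (fun x => ∑ z ∈ T.filter (fun z => g z ≤ g x), om z < c)).eq_empty_or_nonempty
    with h | h
  · rw [h, Finset.sum_empty]
    exact hc
  · obtain ⟨x, hx, hmax⟩ := Finset.exists_max_image _ g h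
    rw [Finset.mem_filter] at hx
    refine lt_of_le_of_lt ?_ hx.2
    apply Finset.sum_le_sum_of_subset_of_nonneg
    · intro z hz
      rw [Finset.mem_filter]
      exact ⟨(Finset.mem_filter.1 hz).1, hmax z hz⟩
    · intro z hz _
      exact h0 z (Finset.mem_filter.1 hz).1

/-- the elements with small upper mass have small total mass -/
theorem mass_up (T : Finset ι) (om : ι → ℝ) (g : ι → ℝ) (h0 : ∀ x ∈ T, 0 ≤ om x) {c : ℝ}
    (hc : 0 < c) :
    ∑ x ∈ T.filter (fun x => ∑ z ∈ T.filter (fun z => g x ≤ g z), om z < c), om x < c := by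
  have := mass_low T om (fun x => - g x) h0 hc
  simpa only [neg_le_neg_iff] using this

/-! ### bundles -/

/-- A bundle: edges with times in `[s, s']`, a probability weight `om` on their fast lines,
large sets of lines have large value, the labels of the lines are almost constant in `[t0, t1]`. -/
structure Bun (L : Lines ι) (EE : Finset (ι × ι)) (t0 t1 u : ℝ) where
  s : ℝ
  s' : ℝ
  E : Finset (ι × ι)
  om : ι → ℝ
  hs : t0 ≤ s
  hss : s ≤ s'
  hs' : s' ≤ t1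
  sub : E ⊆ EE
  tm1 : ∀ e ∈ E, s ≤ L.tm e.1 e.2
  tm2 : ∀ e ∈ E, L.tm e.1 e.2 ≤ s'
  om0 : ∀ x ∈ B E, 0 ≤ om x
  om1 : ∑ x ∈ B E, om x = 1
  v0 : ∀ S ⊆ B E, 1 / 100 ≤ ∑ x ∈ S, om x → u ≤ L.nu (E.filter (fun e => e.2 ∈ S))
  v1 : ∀ S ⊆ B E, 1 / 8 ≤ ∑ x ∈ S, om x → 2 * u ≤ L.nu (E.filter (fun e => e.2 ∈ S))
  fV : ∀ x ∈ B E, (L.V EE x t1 : ℝ) < L.V EE x t0 + u
  fW : ∀ x ∈ B E, (L.W EE x t0 : ℝ) < L.W EE x t1 + u
  gen : ∀ x ∈ B E, ∀ y ∈ B E, x ≠ y → L.H x s ≠ L.H y s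

namespace Bun

variable {L : Lines ι} {EE : Finset (ι × ι)} {t0 t1 u : ℝ}

/-- the mass at or below `x` at the time `t0` -/
noncomputable def low (b : Bun L EE t0 t1 u) (x : ι) : ℝ :=
  ∑ z ∈ (B b.E).filter (fun z => L.H z t0 ≤ L.H x t0), b.om z

/-- the mass at or above `x` at the time `t0` -/
noncomputable def up (b : Bun L EE t0 t1 u) (x : ι) : ℝ :=
  ∑ z ∈ (B b.E).filter (fun z => L.H x t0 ≤ L.H z t0), b.om z

/-- the trimmed bundle -/
noncomputable def T (b : Bun L EE t0 t1 u) : Finset ι :=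
  (B b.E).filter (fun x => 1 / 8 ≤ b.low x ∧ 1 / 8 ≤ b.up x)

/-- the mass which overtakes `x` -/
noncomputable def ovb (b : Bun L EE t0 t1 u) (x : ι) : ℝ :=
  ∑ z ∈ (B b.E).filter (fun z => L.H z t0 ≤ L.H x t0 ∧ L.H x t1 < L.H z t1), b.om z

/-- the mass which is overtaken by `x` -/
noncomputable def ov (b : Bun L EE t0 t1 u) (x : ι) : ℝ :=
  ∑ z ∈ (B b.E).filter (fun z => L.H x t0 ≤ L.H z t0 ∧ L.H z t1 < L.H x t1), b.om z

/-- the middle part -/
noncomputable def M (b : Bun L EE t0 t1 u) : Finset ι :=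
  (B b.E).filter (fun x => 1 / 4 ≤ b.low x ∧ 1 / 4 ≤ b.up x ∧ b.ovb x < 8 / 100)

theorem M_sub (b : Bun L EE t0 t1 u) : b.M ⊆ B b.E := Finset.filter_subset _ _

theorem mem_M {b : Bun L EE t0 t1 u} {x : ι} :
    x ∈ b.M ↔ x ∈ B b.E ∧ 1 / 4 ≤ b.low x ∧ 1 / 4 ≤ b.up x ∧ b.ovb x < 8 / 100 := by
  simp only [M, Finset.mem_filter]

theorem mem_T {b : Bun L EE t0 t1 u} {x : ι} :
    x ∈ b.T ↔ x ∈ B b.E ∧ 1 / 8 ≤ b.low x ∧ 1 / 8 ≤ b.up x := by
  simp only [T, Finset.mem_filter]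

theorem M_sub_T (b : Bun L EE t0 t1 u) : b.M ⊆ b.T := by
  intro x hx
  rw [mem_M] at hx
  rw [mem_T]
  exact ⟨hx.1, by linarith [hx.2.1], by linarith [hx.2.2.1]⟩

theorem B_sub (b : Bun L EE t0 t1 u) : B b.E ⊆ B EE := B_mono b.sub

theorem t01 (b : Bun L EE t0 t1 u) : t0 ≤ t1 := b.hs.trans (b.hss.trans b.hs')

/-- (i) a frozen line overtakes little of a bundle -/
theorem ov_lt (b : Bun L EE t0 t1 u) (hEE : ∀ e ∈ EE, L.v e.1 < L.v e.2) {x : ι}
    (hx : (L.V EE x t1 : ℝ) < L.V EE x t0 + u) : b.ov x < 1 / 100 := by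
  by_contra hcon
  push Not at hcon
  have h1 := b.v0 _ (Finset.filter_subset _ _) hcon
  have h2 := L.V_step (EE := EE) (x := x) (y := x) (t0 := t0) (t1 := t1)
    (S := b.E.filter (fun e => e.2 ∈ (B b.E).filter
      (fun z => L.H x t0 ≤ L.H z t0 ∧ L.H z t1 < L.H x t1)))
    b.t01 hEE ((Finset.filter_subset _ _).trans b.sub) le_rfl le_rfl
    (fun f hf => b.hs.trans (b.tm1 f (Finset.mem_filter.1 hf).1))
    (fun f hf => (b.tm2 f (Finset.mem_filter.1 hf).1).trans b.hs')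
    (fun f hf => by
      have h3 := (Finset.mem_filter.1 (Finset.mem_filter.1 hf).2).2
      exact L.v_lt_of_overtake b.t01 h3.1 h3.2)
    (fun f hf => (Finset.mem_filter.1 (Finset.mem_filter.1 hf).2).2.1)
    (fun f hf => (Finset.mem_filter.1 (Finset.mem_filter.1 hf).2).2.2)
  have h3 : (L.V EE x t0 : ℝ) + (L.nu (b.E.filter (fun e => e.2 ∈ (B b.E).filter
      (fun z => L.H x t0 ≤ L.H z t0 ∧ L.H z t1 < L.H x t1))) : ℝ) ≤ L.V EE x t1 := by
    exact_mod_cast h2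
  linarith

/-- the mass of the lines which are overtaken by a large mass -/
theorem mass_ovb (b : Bun L EE t0 t1 u) (hEE : ∀ e ∈ EE, L.v e.1 < L.v e.2) :
    ∑ x ∈ (B b.E).filter (fun x => 8 / 100 ≤ b.ovb x), b.om x ≤ 1 / 8 := by
  have h1 : ∑ x ∈ B b.E, b.om x * b.ovb x = ∑ z ∈ B b.E, b.om z * b.ov z := by
    simp only [ovb, ov, Finset.sum_filter, Finset.mul_sum]
    rw [Finset.sum_comm]
    apply Finset.sum_congr rfl
    intro z _
    apply Finset.sum_congr rfl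
    intro x _
    split_ifs
    · ring
    · simp
  have h2 : ∑ z ∈ B b.E, b.om z * b.ov z ≤ ∑ z ∈ B b.E, b.om z * (1 / 100) := by
    apply Finset.sum_le_sum
    intro z hz
    exact mul_le_mul_of_nonneg_left (b.ov_lt hEE (b.fV z hz)).le (b.om0 z hz)
  rw [← Finset.sum_mul, b.om1] at h2
  have h3 : (8 / 100 : ℝ) * ∑ x ∈ (B b.E).filter (fun x => 8 / 100 ≤ b.ovb x), b.om x
      ≤ ∑ x ∈ B b.E, b.om x * b.ovb x := by
    rw [Finset.mul_sum, Finset.sum_filter]
    apply Finset.sum_le_sum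
    intro x hx
    have h4 := b.om0 x hx
    have h5 : 0 ≤ b.ovb x := Finset.sum_nonneg fun z hz => b.om0 z (Finset.mem_filter.1 hz).1
    split_ifs with h6
    · nlinarith
    · positivity
  linarith

/-- the middle part has mass at least `3 / 8` -/
theorem mass_M (b : Bun L EE t0 t1 u) (hEE : ∀ e ∈ EE, L.v e.1 < L.v e.2) :
    3 / 8 ≤ ∑ x ∈ b.M, b.om x := by
  have h1 := mass_low (B b.E) b.om (fun x => L.H x t0) b.om0 (c := 1 / 4) (by norm_num)
  have h2 := mass_up (B b.E) b.om (fun x => L.H x t0) b.om0 (c := 1 / 4) (by norm_num)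
  have h3 := b.mass_ovb hEE
  have h4 : ∑ x ∈ B b.E, b.om x ≤ ∑ x ∈ b.M, b.om x
      + ∑ x ∈ (B b.E).filter (fun x => b.low x < 1 / 4), b.om x
      + ∑ x ∈ (B b.E).filter (fun x => b.up x < 1 / 4), b.om x
      + ∑ x ∈ (B b.E).filter (fun x => 8 / 100 ≤ b.ovb x), b.om x := by
    simp only [M, Finset.sum_filter, ← Finset.sum_add_distrib]
    apply Finset.sum_le_sum
    intro x hx
    have h5 := b.om0 x hx
    by_cases c1 : b.low x < 1 / 4
    · rw [if_pos c1]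
      split_ifs <;> linarith
    · by_cases c2 : b.up x < 1 / 4
      · rw [if_pos c2]
        split_ifs <;> linarith
      · by_cases c3 : 8 / 100 ≤ b.ovb x
        · rw [if_pos c3]
          split_ifs <;> linarith
        · push Not at c1 c2 c3
          rw [if_pos ⟨c1, c2, c3⟩]
          split_ifs <;> linarith
  rw [b.om1] at h4
  have h1' : ∑ x ∈ (B b.E).filter (fun x => b.low x < 1 / 4), b.om x < 1 / 4 := h1
  have h2' : ∑ x ∈ (B b.E).filter (fun x => b.up x < 1 / 4), b.om x < 1 / 4 := h2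
  linarith

/-- (ii) the middle parts of separated bundles are weakly ordered at the time `t1` -/
theorem M_le_end (b c : Bun L EE t0 t1 u) (hEE : ∀ e ∈ EE, L.v e.1 < L.v e.2)
    (hT : ∀ x ∈ b.T, ∀ y ∈ c.T, L.H x t0 < L.H y t0) {x y : ι} (hx : x ∈ b.M) (hy : y ∈ c.M) :
    L.H x t1 ≤ L.H y t1 := by
  by_contra hcon
  push Not at hcon
  have hy' := mem_M.1 hy
  have h1 := mass_low (B c.E) c.om (fun x => L.H x t0) c.om0 (c := 1 / 8) (by norm_num)
  have h1' : ∑ x ∈ (B c.E).filter (fun x => c.low x < 1 / 8), c.om x < 1 / 8 := h1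
  have h2 := c.ov_lt hEE (b.fV x (b.M_sub hx))
  have h3 : c.low y ≤ ∑ x ∈ (B c.E).filter (fun x => c.low x < 1 / 8), c.om x
      + c.ovb y + c.ov x := by
    simp only [ovb, ov]
    rw [low]
    simp only [Finset.sum_filter, ← Finset.sum_add_distrib]
    apply Finset.sum_le_sum
    intro z hz
    have h5 := c.om0 z hz
    by_cases c0 : L.H z t0 ≤ L.H y t0
    · rw [if_pos c0]
      by_cases c1 : c.low z < 1 / 8
      · rw [if_pos c1]
        split_ifs <;> linarith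
      · rw [if_neg c1]
        have hzT : z ∈ c.T := by
          rw [mem_T]
          refine ⟨hz, by linarith, ?_⟩
          have h6 : c.up y ≤ c.up z := by
            apply Finset.sum_le_sum_of_subset_of_nonneg
            · intro w hw
              rw [Finset.mem_filter] at hw ⊢
              exact ⟨hw.1, c0.trans hw.2⟩
            · intro w hw _
              exact c.om0 w (Finset.mem_filter.1 hw).1
          linarith [hy'.2.2.1]
        have h7 := hT x (b.M_sub_T hx) z hzT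
        by_cases c2 : L.H z t1 < L.H x t1
        · rw [if_pos (show L.H x t0 ≤ L.H z t0 ∧ L.H z t1 < L.H x t1 from ⟨h7.le, c2⟩)]
          split_ifs <;> linarith
        · have c3 : L.H y t1 < L.H z t1 := by linarith
          rw [if_pos (show L.H z t0 ≤ L.H y t0 ∧ L.H y t1 < L.H z t1 from ⟨c0, c3⟩)]
          split_ifs <;> linarith
    · rw [if_neg c0]
      split_ifs <;> linarith
  linarith [hy'.2.1, hy'.2.2.2]

/-- (ii) the middle parts of separated bundles are ordered at all times -/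
theorem M_lt (b c : Bun L EE t0 t1 u) (hEE : ∀ e ∈ EE, L.v e.1 < L.v e.2)
    (hgen : ∀ x ∈ B EE, ∀ y ∈ B EE, x ≠ y → L.H x t1 ≠ L.H y t1)
    (hT : ∀ x ∈ b.T, ∀ y ∈ c.T, L.H x t0 < L.H y t0) {x y : ι} (hx : x ∈ b.M) (hy : y ∈ c.M)
    {t : ℝ} (ht0 : t0 ≤ t) (ht1 : t ≤ t1) : L.H x t < L.H y t := by
  have e0 := hT x (b.M_sub_T hx) y (c.M_sub_T hy)
  have hxy : x ≠ y := by
    rintro rfl
    exact lt_irrefl _ e0
  exact L.H_lt_between ht0 ht1 e0 (lt_of_le_of_ne (b.M_le_end c hEE hT hx hy)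
    (hgen x (b.B_sub (b.M_sub hx)) y (c.B_sub (c.M_sub hy)) hxy))

/-- (ii), weak form without general position at the time `t1` -/
theorem M_le (b c : Bun L EE t0 t1 u) (hEE : ∀ e ∈ EE, L.v e.1 < L.v e.2)
    (hT : ∀ x ∈ b.T, ∀ y ∈ c.T, L.H x t0 < L.H y t0) {x y : ι} (hx : x ∈ b.M) (hy : y ∈ c.M)
    {t : ℝ} (ht0 : t0 ≤ t) (ht1 : t ≤ t1) : L.H x t ≤ L.H y t := by
  have e0 := hT x (b.M_sub_T hx) y (c.M_sub_T hy)
  have e1 := b.M_le_end c hEE hT hx hy
  rcases le_total (L.v x) (L.v y) with hv | hv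
  · exact (L.H_lt_of_le hv ht0 e0).le
  · by_contra hcon
    push Not at hcon
    unfold Lines.H at *
    nlinarith [mul_nonneg (sub_nonneg.2 hv) (sub_nonneg.2 ht1)]

/-- the three types of bundles; `y` is a line of the middle part -/
def IsTy (b : Bun L EE t0 t1 u) (y : ι) (τ : Fin 3) : Prop :=
  (τ = 0 → 1 / 8 ≤ ∑ z ∈ b.M.filter (fun z => L.H y b.s < L.H z b.s), b.om z) ∧
  (τ = 1 → 1 / 8 ≤ ∑ z ∈ b.M.filter (fun z => L.H z b.s < L.H y b.s), b.om z) ∧
  (τ = 2 → 1 / 8 ≤ ∑ z ∈ b.M.filter (fun z => z = y), b.om z)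

theorem exists_ty (b : Bun L EE t0 t1 u) (hEE : ∀ e ∈ EE, L.v e.1 < L.v e.2) {y : ι}
    (hy : y ∈ b.M) : ∃ τ, b.IsTy y τ := by
  have h1 := b.mass_M hEE
  have h2 : ∑ x ∈ b.M, b.om x ≤ ∑ z ∈ b.M.filter (fun z => L.H y b.s < L.H z b.s), b.om z
      + ∑ z ∈ b.M.filter (fun z => L.H z b.s < L.H y b.s), b.om z
      + ∑ z ∈ b.M.filter (fun z => z = y), b.om z := by
    simp only [Finset.sum_filter, ← Finset.sum_add_distrib]
    apply Finset.sum_le_sum
    intro z hz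
    have h5 := b.om0 z (b.M_sub hz)
    rcases lt_trichotomy (L.H y b.s) (L.H z b.s) with h | h | h
    · rw [if_pos h]
      split_ifs <;> linarith
    · have hzy : z = y := by
        by_contra hne
        exact b.gen z (b.M_sub hz) y (b.M_sub hy) hne h.symm
      rw [if_pos hzy]
      split_ifs <;> linarith
    · rw [if_pos h]
      split_ifs <;> linarith
  by_cases c0 : 1 / 8 ≤ ∑ z ∈ b.M.filter (fun z => L.H y b.s < L.H z b.s), b.om z
  · exact ⟨0, fun _ => c0, fun h => absurd h (by decide), fun h => absurd h (by decide)⟩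
  · by_cases c1 : 1 / 8 ≤ ∑ z ∈ b.M.filter (fun z => L.H z b.s < L.H y b.s), b.om z
    · exact ⟨1, fun h => absurd h (by decide), fun _ => c1, fun h => absurd h (by decide)⟩
    · refine ⟨2, fun h => absurd h (by decide), fun h => absurd h (by decide), fun _ => ?_⟩
      push Not at c0 c1
      linarith

/-- (iii) the labels of the fastest lines of two separated bundles of the same type -/
theorem pair (b c : Bun L EE t0 t1 u) (hEE : ∀ e ∈ EE, L.v e.1 < L.v e.2)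
    (hgen : ∀ x ∈ B EE, ∀ y ∈ B EE, x ≠ y → L.H x t1 ≠ L.H y t1)
    (hinj : ∀ x ∈ B EE, ∀ y ∈ B EE, L.v x = L.v y → x = y)
    (hT : ∀ x ∈ b.T, ∀ y ∈ c.T, L.H x t0 < L.H y t0) {y y' : ι} (hy : y ∈ b.M) (hy' : y' ∈ c.M)
    (hm : ∀ z ∈ b.M, L.v z ≤ L.v y) (hm' : ∀ z ∈ c.M, L.v z ≤ L.v y') {τ : Fin 3}
    (h1 : b.IsTy y τ) (h2 : c.IsTy y' τ) :
    (L.V EE y t1 : ℝ) + u ≤ L.V EE y' t1 ∨ (L.W EE y' t0 : ℝ) + u ≤ L.W EE y t0 := by
  have hlt : ∀ z ∈ b.M, ∀ z' ∈ c.M, ∀ t, t0 ≤ t → t ≤ t1 → L.H z t < L.H z' t :=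
    fun z hz z' hz' t h0 h1 => b.M_lt c hEE hgen hT hz hz' h0 h1
  -- `y` slower than `y'`
  have hV : ∀ (d : Bun L EE t0 t1 u) (S : Finset ι), S ⊆ B d.E → 1 / 8 ≤ ∑ z ∈ S, d.om z →
      L.v y ≤ L.v y' → (∀ z ∈ S, L.v z < L.v y') → (∀ z ∈ S, L.H y d.s ≤ L.H z d.s) →
      (∀ z ∈ S, L.H z d.s' < L.H y' d.s') → (L.V EE y t1 : ℝ) + u ≤ L.V EE y' t1 := by
    intro d S hS hom hv e1 e2 e3
    have e4 := d.v1 S hS hom
    have e5 := L.V_step (EE := EE) (S := d.E.filter (fun e => e.2 ∈ S)) (x := y) (y := y')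
      d.hss hEE ((Finset.filter_subset _ _).trans d.sub) hv
      (hlt y hy y' hy' _ (d.hs.trans d.hss) d.hs').le
      (fun f hf => d.tm1 f (Finset.mem_filter.1 hf).1)
      (fun f hf => d.tm2 f (Finset.mem_filter.1 hf).1)
      (fun f hf => e1 _ (Finset.mem_filter.1 hf).2)
      (fun f hf => e2 _ (Finset.mem_filter.1 hf).2)
      (fun f hf => e3 _ (Finset.mem_filter.1 hf).2)
    have e6 : (L.V EE y d.s : ℝ) + L.nu (d.E.filter (fun e => e.2 ∈ S)) ≤ L.V EE y' d.s' := by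
      exact_mod_cast e5
    have e7 : (L.V EE y t0 : ℝ) ≤ L.V EE y d.s := by exact_mod_cast L.V_mono EE y d.hs
    have e8 : (L.V EE y' d.s' : ℝ) ≤ L.V EE y' t1 := by exact_mod_cast L.V_mono EE y' d.hs'
    have e9 := b.fV y (b.M_sub hy)
    linarith
  -- `y'` slower than `y`
  have hW : ∀ (d : Bun L EE t0 t1 u) (S : Finset ι), S ⊆ B d.E → 1 / 8 ≤ ∑ z ∈ S, d.om z →
      L.v y' ≤ L.v y → (∀ z ∈ S, L.v z < L.v y) → (∀ z ∈ S, L.H y d.s < L.H z d.s) →
      (∀ z ∈ S, L.H z d.s' ≤ L.H y' d.s') → (L.W EE y' t0 : ℝ) + u ≤ L.W EE y t0 := by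
    intro d S hS hom hv e1 e2 e3
    have e4 := d.v1 S hS hom
    have e5 := L.W_step (EE := EE) (S := d.E.filter (fun e => e.2 ∈ S)) (x := y') (y := y)
      d.hss hEE ((Finset.filter_subset _ _).trans d.sub) hv
      (hlt y hy y' hy' _ d.hs (d.hss.trans d.hs')).le
      (fun f hf => d.tm1 f (Finset.mem_filter.1 hf).1)
      (fun f hf => d.tm2 f (Finset.mem_filter.1 hf).1)
      (fun f hf => e1 _ (Finset.mem_filter.1 hf).2)
      (fun f hf => e2 _ (Finset.mem_filter.1 hf).2)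
      (fun f hf => e3 _ (Finset.mem_filter.1 hf).2)
    have e6 : (L.nu (d.E.filter (fun e => e.2 ∈ S)) : ℝ) + L.W EE y' d.s' ≤ L.W EE y d.s := by
      exact_mod_cast e5
    have e7 : (L.W EE y' t1 : ℝ) ≤ L.W EE y' d.s' := by exact_mod_cast L.W_anti EE y' d.hs'
    have e8 : (L.W EE y d.s : ℝ) ≤ L.W EE y t0 := by exact_mod_cast L.W_anti EE y d.hs
    have e9 := c.fW y' (c.M_sub hy')
    linarith
  have hne : y ≠ y' := by
    rintro rfl
    exact lt_irrefl _ (hlt y hy y hy' t0 le_rfl b.t01)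
  have hvne : L.v y ≠ L.v y' := fun h =>
    hne (hinj y (b.B_sub (b.M_sub hy)) y' (c.B_sub (c.M_sub hy')) h)
  have vlt : ∀ z ∈ b.M, z ≠ y → L.v z < L.v y := fun z hz hzy =>
    lt_of_le_of_ne (hm z hz) fun h =>
      hzy (hinj z (b.B_sub (b.M_sub hz)) y (b.B_sub (b.M_sub hy)) h)
  have vlt' : ∀ z ∈ c.M, z ≠ y' → L.v z < L.v y' := fun z hz hzy =>
    lt_of_le_of_ne (hm' z hz) fun h =>
      hzy (hinj z (c.B_sub (c.M_sub hz)) y' (c.B_sub (c.M_sub hy')) h)
  have bs0 : t0 ≤ b.s' := b.hs.trans b.hss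
  have bs1 : b.s ≤ t1 := b.hss.trans b.hs'
  have cs0 : t0 ≤ c.s' := c.hs.trans c.hss
  have cs1 : c.s ≤ t1 := c.hss.trans c.hs'
  rcases lt_or_gt_of_ne hvne with hv | hv
  · left
    fin_cases τ
    · -- type `A`, bundle `b`
      refine hV b _ ((Finset.filter_subset _ _).trans b.M_sub) (h1.1 rfl) hv.le ?_ ?_ ?_
      · intro z hz
        exact (hm z (Finset.mem_filter.1 hz).1).trans_lt hv
      · intro z hz
        exact (Finset.mem_filter.1 hz).2.le
      · intro z hz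
        exact hlt z (Finset.mem_filter.1 hz).1 y' hy' _ bs0 b.hs'
    · -- type `B`, bundle `c`
      refine hV c _ ((Finset.filter_subset _ _).trans c.M_sub) (h2.2.1 rfl) hv.le ?_ ?_ ?_
      · intro z hz
        have hz' := Finset.mem_filter.1 hz
        refine vlt' z hz'.1 ?_
        rintro rfl
        exact lt_irrefl _ hz'.2
      · intro z hz
        exact (hlt y hy z (Finset.mem_filter.1 hz).1 _ c.hs cs1).le
      · intro z hz
        have hz' := Finset.mem_filter.1 hz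
        exact L.H_lt_of_le (hm' z hz'.1) c.hss hz'.2
    · -- type `C`, bundle `b`
      refine hV b _ ((Finset.filter_subset _ _).trans b.M_sub) (h1.2.2 rfl) hv.le ?_ ?_ ?_
      · intro z hz
        rw [(Finset.mem_filter.1 hz).2]
        exact hv
      · intro z hz
        rw [(Finset.mem_filter.1 hz).2]
      · intro z hz
        exact hlt z (Finset.mem_filter.1 hz).1 y' hy' _ bs0 b.hs'
  · right
    fin_cases τ
    · refine hW b _ ((Finset.filter_subset _ _).trans b.M_sub) (h1.1 rfl) hv.le ?_ ?_ ?_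
      · intro z hz
        have hz' := Finset.mem_filter.1 hz
        refine vlt z hz'.1 ?_
        rintro rfl
        exact lt_irrefl _ hz'.2
      · intro z hz
        exact (Finset.mem_filter.1 hz).2
      · intro z hz
        exact (hlt z (Finset.mem_filter.1 hz).1 y' hy' _ bs0 b.hs').le
    · refine hW c _ ((Finset.filter_subset _ _).trans c.M_sub) (h2.2.1 rfl) hv.le ?_ ?_ ?_
      · intro z hz
        exact (hm' z (Finset.mem_filter.1 hz).1).trans_lt hv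
      · intro z hz
        exact hlt y hy z (Finset.mem_filter.1 hz).1 _ c.hs cs1
      · intro z hz
        have hz' := Finset.mem_filter.1 hz
        exact (L.H_lt_of_le (hm' z hz'.1) c.hss hz'.2).le
    · refine hW c _ ((Finset.filter_subset _ _).trans c.M_sub) (h2.2.2 rfl) hv.le ?_ ?_ ?_
      · intro z hz
        rw [(Finset.mem_filter.1 hz).2]
        exact hv
      · intro z hz
        exact hlt y hy z (Finset.mem_filter.1 hz).1 _ c.hs cs1
      · intro z hz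
        rw [(Finset.mem_filter.1 hz).2]

end Bun

/-- **(T3)** Pairwise separated bundles are few. -/
theorem card_bundles {L : Lines ι} {EE : Finset (ι × ι)} {t0 t1 u : ℝ} (hu : 0 < u)
    (hEE : ∀ e ∈ EE, L.v e.1 < L.v e.2)
    (hgen : ∀ x ∈ B EE, ∀ y ∈ B EE, x ≠ y → L.H x t1 ≠ L.H y t1)
    (hinj : ∀ x ∈ B EE, ∀ y ∈ B EE, L.v x = L.v y → x = y) {κ : Type} (K : Finset κ)
    (b : κ → Bun L EE t0 t1 u)
    (hT : ∀ k ∈ K, ∀ l ∈ K, k ≠ l → (∀ x ∈ (b k).T, ∀ y ∈ (b l).T, L.H x t0 < L.H y t0) ∨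
      (∀ x ∈ (b l).T, ∀ y ∈ (b k).T, L.H x t0 < L.H y t0)) :
    K.card ≤ 3 * (⌊(L.nu EE : ℝ) / u⌋₊ + 1) ^ 2 := by
  have hex : ∀ k, ∃ y ∈ (b k).M, ∀ z ∈ (b k).M, L.v z ≤ L.v y := by
    intro k
    have hne : (b k).M.Nonempty := by
      by_contra hcon
      rw [Finset.not_nonempty_iff_eq_empty] at hcon
      have := (b k).mass_M hEE
      rw [hcon, Finset.sum_empty] at this
      norm_num at this
    exact Finset.exists_max_image _ L.v hne
  choose y hy hm using hex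
  choose τ hτ using fun k => (b k).exists_ty hEE (hy k)
  let N : ℕ := ⌊(L.nu EE : ℝ) / u⌋₊
  let f : κ → Fin 3 × ℕ × ℕ := fun k =>
    (τ k, ⌊(L.V EE (y k) t1 : ℝ) / u⌋₊, ⌊(L.W EE (y k) t0 : ℝ) / u⌋₊)
  have hfl : ∀ p q : ℕ, (p : ℝ) + u ≤ q → ⌊(p : ℝ) / u⌋₊ ≠ ⌊(q : ℝ) / u⌋₊ := by
    intro p q h heq
    have h1 : (p : ℝ) / u + 1 ≤ q / u := by
      rw [le_div_iff₀ hu, add_mul, one_mul, div_mul_cancel₀ _ hu.ne']
      exact h
    have h2 : ⌊(p : ℝ) / u + 1⌋₊ ≤ ⌊(q : ℝ) / u⌋₊ := Nat.floor_le_floor h1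
    rw [Nat.floor_add_one (by positivity)] at h2
    omega
  have hinjf : Set.InjOn f K := by
    intro k hk l hl hkl
    by_contra hne
    have e1 : τ k = τ l := congrArg Prod.fst hkl
    have e2 : ⌊(L.V EE (y k) t1 : ℝ) / u⌋₊ = ⌊(L.V EE (y l) t1 : ℝ) / u⌋₊ :=
      congrArg (fun p => p.2.1) hkl
    have e3 : ⌊(L.W EE (y k) t0 : ℝ) / u⌋₊ = ⌊(L.W EE (y l) t0 : ℝ) / u⌋₊ :=
      congrArg (fun p => p.2.2) hkl
    rcases hT k hk l hl hne with h | h
    · rcases (b k).pair (b l) hEE hgen hinj h (hy k) (hy l) (hm k) (hm l) (hτ k)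
        (by rw [e1]; exact hτ l) with h1 | h1
      · exact hfl _ _ h1 e2
      · exact hfl _ _ h1 e3.symm
    · rcases (b l).pair (b k) hEE hgen hinj h (hy l) (hy k) (hm l) (hm k) (hτ l)
        (by rw [← e1]; exact hτ k) with h1 | h1
      · exact hfl _ _ h1 e2.symm
      · exact hfl _ _ h1 e3
  have hmap : ∀ k ∈ K, f k ∈ (Finset.univ : Finset (Fin 3)) ×ˢ
      (Finset.range (N + 1) ×ˢ Finset.range (N + 1)) := by
    intro k _
    simp only [f, Finset.mem_product, Finset.mem_univ, Finset.mem_range, true_and]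
    constructor
    · have h1 : (L.V EE (y k) t1 : ℝ) / u ≤ (L.nu EE : ℝ) / u := by
        apply div_le_div_of_nonneg_right _ hu.le
        exact_mod_cast L.V_le EE (y k) t1
      exact Nat.lt_succ_of_le (Nat.floor_le_floor h1)
    · have h1 : (L.W EE (y k) t0 : ℝ) / u ≤ (L.nu EE : ℝ) / u := by
        apply div_le_div_of_nonneg_right _ hu.le
        exact_mod_cast L.W_le EE (y k) t0
      exact Nat.lt_succ_of_le (Nat.floor_le_floor h1)
  have := Finset.card_le_card_of_injOn f hmap hinjf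
  rw [Finset.card_product, Finset.card_product, Finset.card_univ, Fintype.card_fin,
    Finset.card_range] at this
  calc K.card ≤ 3 * ((N + 1) * (N + 1)) := this
    _ = 3 * (N + 1) ^ 2 := by ring

end Pool.Agent.GG38
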